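import Pool.Agent.V5helper23.PF.Stm

/-! # PROJECT PF, job COE: coefficients of square integrable functions on the square -/

set_option autoImplicit false
set_option linter.all false

open MeasureTheory Set Real Filter Topology intervalIntegral
open scoped ENNReal NNReal

namespace Pool.Agent.V5helper73.PF

open Pool.Agent.Y308.BC Pool.Agent.V5helper93.NS Pool.Agent.V5helper23.PF

lemma sq_meas : (volume.restrict sq : Measure (ℝ × ℝ)) = mu.prod mu := by
  unfold mu
  rw [Measure.prod_restrict]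
  rfl

lemma ii_eq (g : ℝ → ℝ) : ∫ x in (0:ℝ)..1, g x = ∫ x, g x ∂mu := by
  rw [intervalIntegral.integral_of_le zero_le_one, integral_Ioc_eq_integral_Ioo]

theorem part2 (c : ℝ → ℝ) (σ s : ℝ) (hc : MemLp c 2 mu) (h0 : 0 < s) (hs : s ≤ σ) :
    ∫ x in (0:ℝ)..1, w c σ s x ^ 2 ≤ ∫ x in (0:ℝ)..1, c x ^ 2 := by
  have hσ : 0 < σ := h0.trans_le hs
  have h1 := hasSum_es (memLp_cont (w_slice hc hσ h0))
  have h2 := hasSum_es hc
  refine hasSum_le (fun n => ?_) h1 h2
  rw [cf_w hc hσ h0 hs n, mul_pow]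
  have e1 : Real.exp (-(lam n) * s) ≤ 1 := by
    rw [Real.exp_le_one_iff]
    have := lam_pos n
    nlinarith
  have e2 : Real.exp (-(lam n) * s) ^ 2 ≤ 1 := pow_le_one₀ (Real.exp_pos _).le e1
  have e3 := sq_nonneg (cf (es n) c)
  nlinarith

theorem part1 (F : ℝ × ℝ → ℝ) (hF : MemLp F 2 (volume.restrict sq)) :
    (∀ k, MemLp (cy F k) 2 mu) ∧ (∀ᵐ x ∂mu, MemLp (fun y => F (x, y)) 2 mu) ∧
    (Summable fun k => ∫ x in (0:ℝ)..1, cy F k x ^ 2) ∧ ∃ m, Bd (cy F) m := by
  rw [sq_meas] at hF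
  have hF2 : Integrable (fun p => F p ^ 2) (mu.prod mu) := hF.integrable_sq
  have hFm : AEStronglyMeasurable F (mu.prod mu) := hF.aestronglyMeasurable
  have hx1 : ∀ᵐ x ∂mu, AEStronglyMeasurable (fun y => F (x, y)) mu := hFm.prodMk_left
  have hx2 : ∀ᵐ x ∂mu, Integrable (fun y => F (x, y) ^ 2) mu := hF2.prod_right_ae
  have hx : ∀ᵐ x ∂mu, MemLp (fun y => F (x, y)) 2 mu := by
    filter_upwards [hx1, hx2] with x h1 h2
    exact (memLp_two_iff_integrable_sq h1).2 h2
  set N : ℝ → ℝ := fun x => ∫ y, F (x, y) ^ 2 ∂mu with hN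
  have hNi : Integrable N mu := hF2.integral_prod_left
  have hcm : ∀ k, AEStronglyMeasurable (cy F k) mu := by
    intro k
    have h1 : AEStronglyMeasurable (fun p : ℝ × ℝ => F p * es k p.2) (mu.prod mu) := by
      refine hFm.mul ?_
      exact ((es_cont k).comp continuous_snd).aestronglyMeasurable
    have h2 := h1.integral_prod_right'
    refine h2.congr ?_
    refine Filter.Eventually.of_forall fun x => ?_
    show ∫ y, F (x, y) * es k y ∂mu = cy F k x
    unfold cy cf
    rw [ii_eq]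
  have hle : ∀ S : Finset ℕ, ∀ᵐ x ∂mu, ∑ k ∈ S, cy F k x ^ 2 ≤ N x := by
    intro S
    filter_upwards [hx] with x h
    have h1 := bessel_es h S
    rw [ii_eq] at h1
    exact h1
  have hci : ∀ k, Integrable (fun x => cy F k x ^ 2) mu := by
    intro k
    refine hNi.mono' ((hcm k).pow 2) ?_
    filter_upwards [hle {k}] with x h
    rw [Finset.sum_singleton] at h
    rwa [Real.norm_of_nonneg (sq_nonneg _)]
  have hcM : ∀ k, MemLp (cy F k) 2 mu := fun k => (memLp_two_iff_integrable_sq (hcm k)).2 (hci k)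
  have hS : ∀ S : Finset ℕ, ∑ k ∈ S, ∫ x in (0:ℝ)..1, cy F k x ^ 2 ≤ ∫ x, N x ∂mu := by
    intro S
    simp_rw [ii_eq]
    rw [← integral_finsetSum S fun k _ => hci k]
    exact integral_mono_ae (integrable_finsetSum S fun k _ => hci k) hNi (hle S)
  have hN0 : 0 ≤ ∫ x, N x ∂mu := by
    apply MeasureTheory.integral_nonneg
    intro x
    exact MeasureTheory.integral_nonneg fun y => sq_nonneg _
  refine ⟨hcM, hx, ?_, √(∫ x, N x ∂mu), Real.sqrt_nonneg _, fun k n => ?_⟩
  · refine summable_of_sum_le (fun k => ?_) hS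
    exact intervalIntegral.integral_nonneg zero_le_one fun x _ => sq_nonneg _
  · refine cf_abs_le (hcM k) (Real.sqrt_nonneg _) ?_ n
    rw [Real.sq_sqrt hN0]
    have h1 := hS {k}
    rwa [Finset.sum_singleton] at h1

theorem t_COE : S_COE := ⟨part1, part2⟩

end Pool.Agent.V5helper73.PF
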